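import Pool.Agent.MWGR.StmtsF

/-!
# ZAB: absorption in an entry `0` or in a light first entry
-/

namespace Pool.Agent.MWGR.H27Z

open Pool.Agent.Helper14_MV Pool.Agent.Helper2_MV Pool.Agent.MVO Pool.Agent.MWL Pool.Agent.MWS
  Pool.Agent.MWH Pool.Agent.MWGR

theorem lb_zero {a : ℕ → ℕ} {i : ℕ} (h : ∀ p < i, a p = 0) : lb a i = 0 := by
  unfold lb
  rw [Finset.card_eq_zero, Finset.filter_eq_empty_iff]
  intro p hp
  simp only [ne_eq, not_not]
  exact h p (Finset.mem_range.mp hp)

theorem lb_pos {a : ℕ → ℕ} {i : ℕ} (h : ∃ p < i, a p ≠ 0) : lb a i ≠ 0 := by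
  obtain ⟨p, hp, hpa⟩ := h
  unfold lb
  intro h0
  rw [Finset.card_eq_zero, Finset.filter_eq_empty_iff] at h0
  exact h0 (Finset.mem_range.mpr hp) hpa

theorem lb_one {a : ℕ → ℕ} {i : ℕ} (h : ∃ p < i, a p = 1 ∧ ∀ l < i, l ≠ p → a l = 0) :
    lb a i = 1 := by
  obtain ⟨p, hp, hpa, hl⟩ := h
  unfold lb
  rw [Finset.card_eq_one]
  refine ⟨p, ?_⟩
  ext l
  simp only [Finset.mem_filter, Finset.mem_range, Finset.mem_singleton]
  constructor
  · rintro ⟨h1, h2⟩
    by_contra hne
    exact h2 (hl l h1 hne)
  · rintro rfl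
    exact ⟨hp, by omega⟩

/-- something behind, nothing heavy before: `GG` -/
theorem gg_of (h1 : MWL.Ta1Stmt) (h2 : MWL.Ta2Stmt) {n : ℕ} {R : FC} (hR : LR n R) {k : ℕ}
    {a : ℕ → ℕ} {i : ℕ} (hik : i ≤ k) (hdeg : 2 ≤ deg k a) (hab : Ab n R k a i) (h0 : a i = 0)
    (hN : ∀ p ≤ i, a p ≤ 1) (hq : ∃ q, i < q ∧ q ≤ k ∧ a q ≠ 0) : MWL.GG n R (lb a i) := by
  by_cases hh : ∃ q, i < q ∧ q ≤ k ∧ 2 ≤ a q
  · exact ((h1 n R hR k a i hik).2.2.1 h0 hN hh).mp hab
  · push Not at hh
    have hall : ∀ p ≤ k, a p ≤ 1 := by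
      intro p hp
      rcases Nat.lt_or_ge i p with h | h
      · have := hh p h hp
        omega
      · exact hN p h
    exact (((h2 n R hR k a i hik hall hdeg).2.1 h0 hq).mp hab).2

theorem behind {k : ℕ} {a : ℕ → ℕ} {i : ℕ} (hdeg : 2 ≤ deg k a) (h0 : a i = 0)
    (hb : ∀ p < i, a p = 0) : ∃ q, i < q ∧ q ≤ k ∧ a q ≠ 0 := by
  by_contra hcon
  push Not at hcon
  have : deg k a = 0 := by
    unfold deg
    apply Finset.sum_eq_zero
    intro j hj
    rw [Finset.mem_range] at hj
    rcases Nat.lt_trichotomy j i with h | h | h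
    · exact hb j h
    · rw [h]; exact h0
    · exact hcon j h (by omega)
  omega

/-- **ZAB** -/
theorem zab (h1 : MWL.Ta1Stmt) (h2 : MWL.Ta2Stmt) : ZabStmt := by
  intro n R hR k a i hik hdeg hab
  refine ⟨?_, ?_, ?_, ?_, ?_⟩
  · intro h0 hp hq
    by_cases hH : ∃ p < i, 2 ≤ a p
    · exact ((h1 n R hR k a i hik).1 h0 hH hq).mp hab
    · push Not at hH
      have hN : ∀ p ≤ i, a p ≤ 1 := by
        intro p hp
        rcases Nat.lt_or_ge p i with h | h
        · have := hH p h
          omega
        · have : p = i := by omega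
          subst this
          omega
      have hg := gg_of h1 h2 hR hik hdeg hab h0 hN hq
      unfold MWL.GG at hg
      rw [if_neg (lb_pos hp)] at hg
      exact hg.2
  · intro h0 hq
    by_cases hH : ∃ p < i, 2 ≤ a p
    · exact ((h1 n R hR k a i hik).2.1 h0 hH hq).mp hab
    · push Not at hH
      have hall : ∀ p ≤ k, a p ≤ 1 := by
        intro p hp
        rcases Nat.lt_trichotomy p i with h | h | h
        · have := hH p h
          omega
        · subst h
          omega
        · have := hq p h hp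
          omega
      exact (((h2 n R hR k a i hik hall hdeg).2.2 h0 hq).mp hab).2
  · intro h0 hb
    have hq := behind hdeg h0 hb
    have hN : ∀ p ≤ i, a p ≤ 1 := by
      intro p hp
      rcases Nat.lt_or_ge p i with h | h
      · have := hb p h
        omega
      · have : p = i := by omega
        subst this
        omega
    have hg := gg_of h1 h2 hR hik hdeg hab h0 hN hq
    unfold MWL.GG at hg
    rw [if_pos (lb_zero hb)] at hg
    exact hg
  · intro h0 hb
    have hN : ∀ p ≤ i, a p ≤ 1 := by
      intro p hp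
      rcases Nat.lt_or_ge p i with h | h
      · have := hb p h
        omega
      · have : p = i := by omega
        subst this
        omega
    have hlb := lb_zero hb
    by_cases hh : ∃ q, i < q ∧ q ≤ k ∧ 2 ≤ a q
    · have := ((h1 n R hR k a i hik).2.2.2 h0 hN hh).mp hab
      rw [hlb] at this
      exact this
    · push Not at hh
      have hall : ∀ p ≤ k, a p ≤ 1 := by
        intro p hp
        rcases Nat.lt_or_ge i p with h | h
        · have := hh p h hp
          omega
        · exact hN p h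
      have := (((h2 n R hR k a i hik hall hdeg).1 h0).mp hab).2
      rw [hlb] at this
      exact this
  · intro h0 hb hq
    have hlb := lb_one hb
    obtain ⟨p, hp, hpa, hl⟩ := hb
    have hN : ∀ l ≤ i, a l ≤ 1 := by
      intro l hli
      rcases Nat.lt_or_ge l i with h | h
      · by_cases hlp : l = p
        · subst hlp
          omega
        · have := hl l h hlp
          omega
      · have : l = i := by omega
        subst this
        omega
    have hg := gg_of h1 h2 hR hik hdeg hab h0 hN hq
    unfold MWL.GG at hg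
    rw [hlb, if_neg one_ne_zero] at hg
    exact hg.1

end Pool.Agent.MWGR.H27Z
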